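import Pool.Agent.H76.CW.Defs

/-!
Statements for the topological part of the theorem on classes of bounded clique-width: perfectly
many closed subsets of the Cantor space which are pairwise not homeomorphic.
-/

set_option autoImplicit false

open Set

namespace Pool.Agent.CW

/-- the iterated sets of accumulation points of a space -/
def Dv (Y : Type) [TopologicalSpace Y] : ℕ → Set Y
  | 0 => univ
  | n + 1 => {p | p ∈ Dv Y n ∧ ∀ U : Set Y, IsOpen U → p ∈ U → ∃ q ∈ U, q ≠ p ∧ q ∈ Dv Y n}

/-- `p` has an open neighbourhood in which no point of `Dv n` is isolated in `Dv n` -/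
def Smo (Y : Type) [TopologicalSpace Y] (n : ℕ) (p : Y) : Prop :=
  ∃ U : Set Y, IsOpen U ∧ p ∈ U ∧ ∀ q ∈ U, q ∈ Dv Y n → q ∈ Dv Y (n + 1)

/-- the numbers which are the depth of some point -/
def Dps (Y : Type) [TopologicalSpace Y] : Set ℕ :=
  {n | ∃ p, p ∈ Dv Y n ∧ Smo Y n p ∧ ∀ m < n, ¬ Smo Y m p}

/-- the parameter of the `n`-th part -/
def kk (x : ℕ → Bool) (n : ℕ) : ℕ := 2 * n + 1 + (if x n = true then 1 else 0)

/-- the points whose first one is at `n` and which have a marked one at `i`: a one such that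
`i - n` is even and positive -/
def Mk (p : ℕ → Bool) (n i : ℕ) : Prop :=
  (∀ j < n, p j = false) ∧ p n = true ∧ n < i ∧ Even (i - n) ∧ p i = true

/-- the closed set `FF x`: after a marked one there are less than `kk x n` further ones -/
def FF (x : ℕ → Bool) : Set (ℕ → Bool) :=
  {p | ∀ n i, Mk p n i → ∀ J : Finset ℕ, (∀ j ∈ J, i < j ∧ p j = true) → J.card < kk x n}

/-- the tree of `FF x` -/
def TF (x : ℕ → Bool) : Set (List Bool) := {s | ∃ p ∈ FF x, pre p s.length = s}

/-- a rank function on a space: points of finite rank `m` have a neighbourhood in which the other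
points have smaller rank, and every point is the limit of other points of rank at least `m` if
its rank is larger than `m` -/
structure RkF (Y : Type) [TopologicalSpace Y] (ρ : Y → ℕ∞) : Prop where
  up : ∀ (p : Y) (m : ℕ), ρ p = m → ∃ U : Set Y, IsOpen U ∧ p ∈ U ∧
    ∀ q ∈ U, q ≠ p → ρ q < m
  lim : ∀ (p : Y) (m : ℕ), (m : ℕ∞) < ρ p → ∀ U : Set Y, IsOpen U → p ∈ U →
    ∃ q ∈ U, q ≠ p ∧ (m : ℕ∞) ≤ ρ q

/-! ### the modules -/

/-- TP1: the depths are a topological invariant. -/
def TP1 : Prop :=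
  ∀ (Y Z : Type) [TopologicalSpace Y] [TopologicalSpace Z], Nonempty (Y ≃ₜ Z) → Dps Y = Dps Z

/-- TP2: a rank function computes the iterated sets of accumulation points. -/
def TP2 : Prop :=
  ∀ (Y : Type) [TopologicalSpace Y] (ρ : Y → ℕ∞), RkF Y ρ → ∀ m : ℕ,
    Dv Y m = {p | (m : ℕ∞) ≤ ρ p}

/-- TP3: the branches of the tree. -/
def TP3 : Prop := ∀ x, Br (TF x) = FF x

/-- TP4: the tree depends measurably on the parameter. -/
def TP4 : Prop := ∀ s : List Bool, MeasurableSet {x | s ∈ TF x}

/-- TP5: the rank function on `FF x`; the exact values near a point. The last part: a point of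
infinite rank which is not the zero sequence has its first one at some `n`, all points near it
have rank infinite or less than `kk x n`, and all ranks less than `kk x n` occur near it. -/
def TP5 : Prop :=
  ∀ x : ℕ → Bool, ∃ ρ : FF x → ℕ∞, RkF (FF x) ρ ∧
    (∀ (p : FF x) (m : ℕ), (m : ℕ∞) ≤ ρ p → ρ p ≠ ⊤ → ∀ U : Set (FF x), IsOpen U → p ∈ U →
      ∃ q ∈ U, ρ q = m) ∧
    (∀ p : FF x, (∀ i, p.1 i = false) → ρ p = ⊤ ∧
      ∀ (m : ℕ) (U : Set (FF x)), IsOpen U → p ∈ U → ∃ q ∈ U, ρ q = m) ∧
    (∀ (p : FF x) (n : ℕ), ρ p = ⊤ → (∀ j < n, p.1 j = false) → p.1 n = true →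
      (∃ U : Set (FF x), IsOpen U ∧ p ∈ U ∧ ∀ q ∈ U, ρ q = ⊤ ∨ ρ q < kk x n) ∧
      ∀ m < kk x n, ∀ U : Set (FF x), IsOpen U → p ∈ U → ∃ q ∈ U, ρ q = m) ∧
    ∀ n, ∃ p : FF x, ρ p = ⊤ ∧ (∀ j < n, p.1 j = false) ∧ p.1 n = true

/-- TP6: the depths of `FF x`. -/
def TP6 : Prop := ∀ x, Dps (FF x) = range (kk x)

/-- TOP: perfectly many trees whose sets of branches are pairwise not homeomorphic. -/
def TOP : Prop :=
  ∃ T : (ℕ → Bool) → Set (List Bool), (∀ x, [] ∈ T x) ∧ (∀ x b s, b :: s ∈ T x → s ∈ T x) ∧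
    (∀ s, MeasurableSet {x | s ∈ T x}) ∧
    ∀ x x', Nonempty (Br (T x) ≃ₜ Br (T x')) → x = x'

/-- TP6 follows from TP2 and TP5; TOP from TP1, TP3, TP4, TP6. -/
theorem top_of (h1 : TP1) (h3 : TP3) (h4 : TP4) (h6 : TP6) : TOP := by
  refine ⟨TF, fun x => ?_, fun x b s => ?_, h4, fun x x' h => ?_⟩
  · exact ⟨fun _ => false, by rintro n i ⟨-, h, -⟩; exact absurd h (by simp), rfl⟩
  · rintro ⟨p, hp, hs⟩
    refine ⟨p, hp, ?_⟩
    rw [List.length_cons] at hs
    change p s.length :: pre p s.length = b :: s at hs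
    exact (List.cons.inj hs).2
  · rw [h3, h3] at h
    have h7 := h1 _ _ h
    rw [h6, h6] at h7
    funext n
    have key : ∀ z w : ℕ → Bool, range (kk z) = range (kk w) → z n = false → w n = false := by
      intro z w hzw hz
      have h8 : kk z n ∈ range (kk w) := hzw ▸ mem_range_self n
      obtain ⟨m, hm⟩ := h8
      unfold kk at hm
      rw [hz] at hm
      by_contra hw
      rw [Bool.not_eq_false] at hw
      have h9 : m = n := by
        split_ifs at hm <;> first | omega | simp_all
      subst h9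
      simp [hw] at hm
    cases hx : x n with
    | false => exact (key _ _ h7 hx).symm
    | true =>
      cases hx' : x' n with
      | true => rfl
      | false => rw [key _ _ h7.symm hx'] at hx; exact absurd hx (by simp)

end Pool.Agent.CW
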