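import Pool.Agent.H76.CW.Defs

/-!
Statements for the width part of the theorem on classes of bounded clique-width: decompositions of
finite sets, limits of their nodes along an ultrafilter, and the lemma on germs.
-/

set_option autoImplicit false

open Set

namespace Pool.Agent.CW

/-- ideals which contain the finite sets -/
structure Idl (N : Set (Set ℕ)) : Prop where
  sub : ∀ A ∈ N, ∀ B, B ⊆ A → B ∈ N
  un : ∀ A ∈ N, ∀ B ∈ N, A ∪ B ∈ N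
  fin : ∀ A : Set ℕ, A.Finite → A ∈ N

/-! ### the modules -/

/-- W1: all nodes have few classes over their complements. -/
def W1 : Prop :=
  ∀ (c : ℕ → ℕ → ℕ) (k : ℕ) (W A : Finset ℕ), MW c k W A →
    A ⊆ W ∧ A.Nonempty ∧ Few c (k + 1) ((W : Set ℕ) \ A) A

/-- W2: a node which contains at least two points of `Y` has a smaller node, split into two
nodes both of which meet `Y`, that contains `Y`. -/
def W2 : Prop :=
  ∀ (c : ℕ → ℕ → ℕ) (k : ℕ) (W P : Finset ℕ), MW c k W P → ∀ Y : Finset ℕ, Y ⊆ P →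
    2 ≤ Y.card → ∃ A B : Finset ℕ, MW c k W A ∧ MW c k W B ∧ MW c k W (A ∪ B) ∧
      Disjoint A B ∧ A ∪ B ⊆ P ∧ Y ⊆ A ∪ B ∧ (Y ∩ A).Nonempty ∧ (Y ∩ B).Nonempty

/-- W3: the limit of sets with few classes over their complements in `{0, …, n - 1}` has few
classes over its complement. -/
def W3 : Prop :=
  ∀ (c : ℕ → ℕ → ℕ) (k : ℕ) (U : Ultrafilter ℕ), (∀ n, {m | n ≤ m} ∈ U) →
    ∀ A : ℕ → Finset ℕ,
      {n | Few c k ((Finset.range n : Finset ℕ) \ (A n) : Set ℕ) (A n)} ∈ U →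
    Few c k {z | {n | z ∈ A n} ∈ U}ᶜ {z | {n | z ∈ A n} ∈ U}

/-- W4: the induction step.  `Y` is a finite set of elements of `D` with pairwise different
germs, `P n` are nodes which contain `Y` and whose limit is not small.  Then `Y` has at most
`k + 1` elements, or there are smaller nodes `P' n` whose limit is not small and which contain a
smaller nonempty part of `Y`. -/
def W4 : Prop :=
  ∀ (c : ℕ → ℕ → ℕ) (k : ℕ) (U : Ultrafilter ℕ), (∀ n, {m | n ≤ m} ∈ U) →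
    ∀ (N : Set (Set ℕ)) (D : Set ℕ), Idl N → D ∉ N →
    (∀ A : Set ℕ, Few c (k + 1) Aᶜ A → D ∩ A ∈ N ∨ D \ A ∈ N) →
    ∀ (P : ℕ → Finset ℕ) (Y : Finset ℕ), (∀ y ∈ Y, y ∈ D) → Y.Nonempty →
    (∀ x ∈ Y, ∀ y ∈ Y, x ≠ y → df c D x y ∉ N) →
    {n | MW c k (Finset.range n) (P n) ∧ Y ⊆ P n} ∈ U → D \ {z | {n | z ∈ P n} ∈ U} ∈ N →
    Y.card ≤ k + 1 ∨ ∃ (P' : ℕ → Finset ℕ) (Y' : Finset ℕ), Y' ⊆ Y ∧ Y'.Nonempty ∧
      Y'.card < Y.card ∧ {n | MW c k (Finset.range n) (P' n) ∧ Y ∩ P' n = Y' ∧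
        P' n ⊆ P n} ∈ U ∧
      D \ {z | {n | z ∈ P' n} ∈ U} ∈ N

/-- W5: points outside a set which is not small and has few classes have few germs. -/
def W5 : Prop :=
  ∀ (c : ℕ → ℕ → ℕ) (n k : ℕ), (∀ x y, c x y < n) → ∀ (N : Set (Set ℕ)) (D : Set ℕ), Idl N →
    ∀ A : Set ℕ, Few c k Aᶜ A → D \ A ∈ N → ∀ Y : Finset ℕ, (∀ y ∈ Y, y ∈ D ∧ y ∉ A) →
    (∀ x ∈ Y, ∀ y ∈ Y, x ≠ y → df c D x y ∉ N) → Y.card ≤ (n * n) ^ k

/-- WGER: in a structure of finite width a set `D` on which all sets with few classes over their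
complements are decided has finitely many germs. -/
def WGER : Prop :=
  ∀ (c : ℕ → ℕ → ℕ) (n k : ℕ), (∀ x y, c x y < n) → Wd c k → ∀ (N : Set (Set ℕ)) (D : Set ℕ),
    Idl N → D ∉ N → (∀ A : Set ℕ, Few c (k + 1) Aᶜ A → D ∩ A ∈ N ∨ D \ A ∈ N) →
    ∃ m : ℕ, ∀ Y : Finset ℕ, (∀ y ∈ Y, y ∈ D) →
      (∀ x ∈ Y, ∀ y ∈ Y, x ≠ y → df c D x y ∉ N) → Y.card ≤ m

/-- WGR: another form of the conclusion of `WGER`: finitely many representatives. -/
def WGR : Prop :=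
  ∀ (c : ℕ → ℕ → ℕ) (N : Set (Set ℕ)) (D : Set ℕ), Idl N →
    (∃ m : ℕ, ∀ Y : Finset ℕ, (∀ y ∈ Y, y ∈ D) →
      (∀ x ∈ Y, ∀ y ∈ Y, x ≠ y → df c D x y ∉ N) → Y.card ≤ m) →
    ∃ R : List ℕ, (∀ r ∈ R, r ∈ D) ∧ ∀ x ∈ D, ∃ r ∈ R, df c D x r ∈ N

/-- WMS: bounded width is a measurable condition. -/
def WMS : Prop := ∀ k : ℕ, MeasurableSet {c : ℕ → ℕ → ℕ | Wd c k}

/-- WIN: the width is invariant. -/
def WIN : Prop :=
  ∀ (c c' : ℕ → ℕ → ℕ) (g : Equiv.Perm ℕ), (∀ i j, c' (g i) (g j) = c i j) →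
    ∀ k : ℕ, Wd c k → Wd c' k

end Pool.Agent.CW
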