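import Pool.Agent.H76.CW.StmtG

/-! Structures with at most `m` germs at every direction form a Borel set. -/

set_option autoImplicit false

open Set

namespace Pool.Agent.CW

/-- every direction has at most `m` germs -/
def AtM (c : ℕ → ℕ → ℕ) (m : ℕ) : Prop :=
  ∀ U, Dirn c U → ∀ f : Fin (m + 1) → ℕ, ∃ i j, i ≠ j ∧ ∃ A ∈ U, ∀ y ∈ A,
    ee c (f i) y = ee c (f j) y

/-- the points outside `S` whose closure for the table consists of points at which `a` and `b`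
agree -/
def Cor (c : ℕ → ℕ → ℕ) (S : List ℕ) (F : Tab) (a b : ℕ) : Set ℕ :=
  {x | x ∉ S ∧ ∀ z ∈ cl c univ S F x, ee c a z = ee c b z}

/-- the Borel form of `AtM` -/
def AtQ (c : ℕ → ℕ → ℕ) (m : ℕ) : Prop :=
  ∀ f : Fin (m + 1) → ℕ, ∃ (g : Fin (m + 1) → Fin (m + 1) → List ℕ × Tab) (N : ℕ), ∀ y, N ≤ y →
    ∃ i j, i ≠ j ∧ y ∈ Cor c (g i j).1 (g i j).2 (f i) (f j)

/-- GM1: the two forms are equivalent. -/
def T_GM1 : Prop :=
  ∀ (n : ℕ) (c : ℕ → ℕ → ℕ), (∀ x y, c x y < n) → ∀ m, AtM c m ↔ AtQ c m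

/-- GM2: the second form is Borel. -/
def T_GM2 : Prop := ∀ m, MeasurableSet {c : ℕ → ℕ → ℕ | AtQ c m}

/-- GM3: invariance. -/
def T_GM3 : Prop :=
  ∀ (c c' : ℕ → ℕ → ℕ) (g : Equiv.Perm ℕ), (∀ i j, c' (g i) (g j) = c i j) →
    ∀ m, AtM c m → AtM c' m

end Pool.Agent.CW
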