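import Pool.Agent.H76.CW.StmtG
import Pool.Agent.H71.VK.HSK

/-! Rich directions: infinitely many germs and divisibility. -/

set_option autoImplicit false

open Set Pool.Agent.TK Pool.Agent.H71.VK

namespace Pool.Agent.CW

variable {C : Type}

/-- The group of the automorphisms of `M` which are the identity outside `A` has a closed subgroup
with a continuous homomorphism onto the infinite symmetric group, which takes the elements which
are the identity on a member of `U` to finitary permutations. -/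
def DvS (M : St (C × ℕ)) (U : Set (Set ℕ)) (A : Set ℕ) : Prop :=
  ∃ H : Subgroup (Equiv.Perm ℕ),
    (∀ g ∈ H, IsoH g M M ∧ ∀ z, z ∉ A → g z = z) ∧
    (∀ g : Equiv.Perm ℕ, (∀ E : Finset ℕ, ∃ h ∈ H, ∀ x ∈ E, h x = g x) → g ∈ H) ∧
    ∃ φ : H →* Equiv.Perm ℕ, Function.Surjective φ ∧
      (∀ n : ℕ, ∃ E : Finset ℕ, ∀ h h' : H,
        (∀ x ∈ E, (h : Equiv.Perm ℕ) x = (h' : Equiv.Perm ℕ) x) → φ h n = φ h' n) ∧
      ∀ (h : H) (B : Set ℕ), B ∈ U → (∀ z ∈ B, (h : Equiv.Perm ℕ) z = z) →
        {n | φ h n ≠ n}.Finite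

/-- there is a divisible direction with infinitely many germs -/
def Rich (M : St (C × ℕ)) : Prop :=
  ∃ U, Dirn (bn M) U ∧ ¬ FGm (bn M) U ∧ ∀ A ∈ U, DvS M U A

end Pool.Agent.CW
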