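import Pool.Agent.H71.CW.Fin
import Pool.Agent.H71.CW.Gms
import Pool.Agent.H71.CW.Rich
import Pool.Agent.H76.CW.GMain
import Pool.Agent.H41.CW.Dvp

/-!
The final reduction for the structure theorem for binary structures: directions and germs.
-/

set_option autoImplicit false

open Set Pool.Agent.TK Pool.Agent.H71.VK

namespace Pool.Agent.CW

/-- CWG: the structure theorem for coded structures. -/
def CWG (C : Type) [MeasurableSpace C] [StandardBorelSpace C] (c0 : C) : Prop :=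
  ∀ (n : ℕ) (X : Set (St (C × ℕ))), MeasurableSet X → (∀ M ∈ X, BV c0 n M) →
    (∀ M ∈ X, ∀ N, Iso M N → N ∈ X) →
    Perf X ∨ (∃ T : Set (St (C × ℕ)), T.Countable ∧ ∀ M ∈ X, ∃ N ∈ T, Iso M N) ∨
      ¬ ∃ T : Set (St (C × ℕ)), T.Countable ∧ ∀ M ∈ X, Rich M → ∃ N ∈ T, Iso M N

theorem cwg_of {C : Type} [MeasurableSpace C] [StandardBorelSpace C] {c0 : C}
    (hCTB : T_CTB C) (hFNB : T_FNB C) (hGNG : T_GNG C c0) (hSYG : T_SYH C c0)
    (hDIR : T_DIR) (hSCH : G_SCH SpG) (hEND : E_END C) (hDVP : T_DVP C c0) : CWG C c0 := by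
  intro n X hX hV hI
  refine gdf_of hCTB hFNB hGNG hSYG hDIR hSCH hEND n X hX hV hI Rich ?_
  intro M hM O G hG π hπ
  refine ⟨Dr G π, hπ.dir, hπ.germ, fun A hA => ?_⟩
  obtain ⟨s, h1, h2, h3⟩ := hπ.pc A hA
  obtain ⟨H, e1, e2, φ, e3, e4, e5⟩ := hDVP n M (hV M hM) _ G hG (s :: π) h1 h2
  refine ⟨H, fun g hg => ⟨(e1 g hg).1, fun z hz => (e1 g hg).2 z fun h => hz (h3 h)⟩, e2, φ, e3, e4,
    ?_⟩
  intro h B hB hid
  refine e5 h (st (bn M) (s :: π) \ B) ?_ ?_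
  · exact hB.2.mono fun x hx => ⟨(st_sub h1 _ hx.1).1, hx.2⟩
  · intro z hz
    by_cases hzB : z ∈ B
    · exact hid z hzB
    · exact (e1 _ h.2).2 z fun hzs => hz ⟨hzs, hzB⟩

section

variable {C : Type} {n : ℕ}

/-- isomorphism of decoded structures -/
def IsoD (x y : (ℕ → ℕ → Fin n) × (ℕ → C)) : Prop :=
  ∃ g : Equiv.Perm ℕ, (∀ i j, y.1 (g i) (g j) = x.1 i j) ∧ ∀ i, y.2 (g i) = x.2 i

/-- perfectly many types of decoded structures -/
def PerfD [MeasurableSpace C] (X : Set ((ℕ → ℕ → Fin n) × (ℕ → C))) : Prop :=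
  ∃ f : (ℕ → Bool) → (ℕ → ℕ → Fin n) × (ℕ → C), Measurable f ∧ (∀ u, f u ∈ X) ∧
    ∀ u v, u ≠ v → ¬ IsoD (f u) (f v)

/-- countably many types of decoded structures -/
def CntD (X : Set ((ℕ → ℕ → Fin n) × (ℕ → C))) : Prop :=
  ∃ D : Set ((ℕ → ℕ → Fin n) × (ℕ → C)), D.Countable ∧ ∀ x ∈ X, ∃ y ∈ D, IsoD x y

lemma isoD_iff {c0 : C} {x y : (ℕ → ℕ → Fin n) × (ℕ → C)} :
    IsoD x y ↔ Iso (enc c0 x) (enc c0 y) :=
  ⟨fun ⟨_, h1, h2⟩ => iso_enc h1 h2, fun h => iso_enc_inv h⟩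

lemma iso_symm' {M N : St (C × ℕ)} (h : Iso M N) : Iso N M := by
  obtain ⟨g, -, h1, h2⟩ := h
  refine ⟨g.symm, by simp, fun u v => ?_, fun l => ?_⟩
  · rw [h1]; simp
  · rw [h2, List.map_map]; simp

lemma iso_trans' {M N L : St (C × ℕ)} (h : Iso M N) (h' : Iso N L) : Iso M L := by
  obtain ⟨g, -, h1, h2⟩ := h
  obtain ⟨g', -, h1', h2'⟩ := h'
  refine ⟨g.trans g', by simp, fun u v => ?_, fun l => ?_⟩
  · rw [h1, h1']; rfl
  · rw [h2, h2', List.map_map]; rfl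

lemma perf_dec [MeasurableSpace C] {c0 : C} {m : ℕ}
    {X : Set ((ℕ → ℕ → Fin (m + 1)) × (ℕ → C))} (h : Perf (enc c0 '' X)) : PerfD X := by
  obtain ⟨f, hf1, hf2, hf3⟩ := h
  refine ⟨fun u => decd (f u), measurable_dec.comp hf1, fun u => ?_, fun u v huv hg => ?_⟩
  · obtain ⟨x, hx, hxe⟩ := hf2 u
    change decd (f u) ∈ X
    rw [← hxe, dec_enc]
    exact hx
  · refine hf3 u v huv ?_
    obtain ⟨x, hx, hxe⟩ := hf2 u
    obtain ⟨y, hy, hye⟩ := hf2 v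
    simp only [← hxe, ← hye, dec_enc] at hg
    rw [← hxe, ← hye]
    exact isoD_iff.1 hg

lemma cnt_dec {c0 : C} {m : ℕ} {X : Set ((ℕ → ℕ → Fin (m + 1)) × (ℕ → C))}
    (h : ∃ T : Set (St (C × ℕ)), T.Countable ∧ ∀ M ∈ enc c0 '' X, ∃ N ∈ T, Iso M N) :
    CntD X := by
  classical
  obtain ⟨T, hT1, hT2⟩ := h
  let r : St (C × ℕ) → St (C × ℕ) := fun N =>
    if h : ∃ y ∈ X, Iso N (enc c0 y) then enc c0 h.choose else N
  refine ⟨{y | enc c0 y ∈ r '' T}, ?_, ?_⟩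
  · refine Set.Countable.mono (s₂ := (decd : St (C × ℕ) → (ℕ → ℕ → Fin (m + 1)) × (ℕ → C)) ''
      (r '' T)) ?_ ((hT1.image _).image _)
    rintro y hy
    exact ⟨_, hy, dec_enc c0 y⟩
  · intro x hx
    obtain ⟨N, hN, hiso⟩ := hT2 (enc c0 x) ⟨x, hx, rfl⟩
    have hex : ∃ y ∈ X, Iso N (enc c0 y) := ⟨x, hx, iso_symm' hiso⟩
    refine ⟨hex.choose, ⟨N, hN, ?_⟩, isoD_iff.2 (iso_trans' hiso hex.choose_spec.2)⟩
    change (if h : ∃ y ∈ X, Iso N (enc c0 y) then enc c0 h.choose else N) = _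
    rw [dif_pos hex]

lemma cnt_enc {c0 : C} {X : Set ((ℕ → ℕ → Fin n) × (ℕ → C))} (h : CntD X) :
    ∃ T : Set (St (C × ℕ)), T.Countable ∧ ∀ M ∈ enc c0 '' X, ∃ N ∈ T, Iso M N := by
  obtain ⟨D, hD1, hD2⟩ := h
  refine ⟨enc c0 '' D, hD1.image _, ?_⟩
  rintro _ ⟨x, hx, rfl⟩
  obtain ⟨y, hy, h⟩ := hD2 x hx
  exact ⟨_, ⟨y, hy, rfl⟩, isoD_iff.1 h⟩

lemma meas_img [MeasurableSpace C] [StandardBorelSpace C] {c0 : C} {m : ℕ}
    {X : Set ((ℕ → ℕ → Fin (m + 1)) × (ℕ → C))} (hX : MeasurableSet X) :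
    MeasurableSet (enc c0 '' X) := by
  refine hX.image_of_measurable_injOn (measurable_enc c0) fun x _ y _ h => ?_
  rw [← dec_enc c0 x, ← dec_enc c0 y, h]

lemma inv_img {c0 : C} {X : Set ((ℕ → ℕ → Fin n) × (ℕ → C))}
    (hinv : ∀ x ∈ X, ∀ y, IsoD x y → y ∈ X) :
    ∀ M ∈ enc c0 '' X, ∀ N, Iso M N → N ∈ enc c0 '' X := by
  rintro _ ⟨x, hx, rfl⟩ N hN
  obtain ⟨y, rfl, g, g1, g2⟩ := exists_of_iso hN
  exact ⟨y, hinv x hx y ⟨g, g1, g2⟩, rfl⟩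

/-- the binary part with values in the natural numbers -/
def nb (x : (ℕ → ℕ → Fin n) × (ℕ → C)) : ℕ → ℕ → ℕ := fun i j => (x.1 i j : ℕ)

lemma measurable_nb [MeasurableSpace C] :
    Measurable (nb : (ℕ → ℕ → Fin n) × (ℕ → C) → ℕ → ℕ → ℕ) := by
  refine measurable_pi_lambda _ fun a => measurable_pi_lambda _ fun b => ?_
  have h : Measurable fun x : (ℕ → ℕ → Fin n) × (ℕ → C) => x.1 a b :=
    (measurable_pi_apply b).comp ((measurable_pi_apply a).comp measurable_fst)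
  exact (measurable_of_countable (fun i : Fin n => (i : ℕ))).comp h

lemma not_fgm_of_atM {c : ℕ → ℕ → ℕ} {m : ℕ} (h : AtM c m) {U : Set (Set ℕ)}
    (hU : Dirn c U) : FGm c U := by
  classical
  by_contra hno
  -- points of pairwise different germs
  have key : ∀ k : ℕ, ∃ f : Fin k → ℕ, ∀ i j, i ≠ j →
      ¬ ∃ A ∈ U, ∀ y ∈ A, ee c (f i) y = ee c (f j) y := by
    intro k
    induction k with
    | zero => exact ⟨fun _ => 0, fun i => i.elim0⟩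
    | succ k ih =>
      obtain ⟨f, hf⟩ := ih
      obtain ⟨x, hx⟩ : ∃ x, ∀ r ∈ List.ofFn f, ¬ ∃ A ∈ U, ∀ y ∈ A, ee c x y = ee c r y := by
        by_contra hcon
        push Not at hcon
        exact hno ⟨List.ofFn f, hcon⟩
      refine ⟨Fin.cons x f, ?_⟩
      have hx' : ∀ i, ¬ ∃ A ∈ U, ∀ y ∈ A, ee c x y = ee c (f i) y := fun i =>
        hx (f i) ((List.mem_ofFn' f (f i)).2 ⟨i, rfl⟩)
      intro i j hij
      induction i using Fin.cases with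
      | zero =>
        induction j using Fin.cases with
        | zero => exact absurd rfl hij
        | succ j =>
          rw [Fin.cons_zero, Fin.cons_succ]
          exact hx' j
      | succ i =>
        induction j using Fin.cases with
        | zero =>
          rw [Fin.cons_zero, Fin.cons_succ]
          rintro ⟨A, hA, hAy⟩
          exact hx' i ⟨A, hA, fun y hy => (hAy y hy).symm⟩
        | succ j =>
          rw [Fin.cons_succ, Fin.cons_succ]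
          exact hf i j fun h => hij (by rw [h])
  obtain ⟨f, hf⟩ := key (m + 1)
  obtain ⟨i, j, hij, h1⟩ := h U hU f
  exact hf i j hij h1

/-- **The final reduction.** -/
theorem final_cwg [MeasurableSpace C] [StandardBorelSpace C] (hF : ∀ c0 : C, CWF C c0)
    (hG : ∀ c0 : C, CWG C c0) (hWMS : WMS) (hWIN : WIN) (hGM1 : T_GM1) (hGM2 : T_GM2)
    (hGM3 : T_GM3)
    (X : Set ((ℕ → ℕ → Fin n) × (ℕ → C))) (hX : MeasurableSet X)
    (hinv : ∀ x ∈ X, ∀ y, IsoD x y → y ∈ X) :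
    CntD X ∨ PerfD X ∨
      (CntD {x ∈ X | (∃ k, Wd (nb x) k) ∨ ∃ m, AtM (nb x) m} ∧
        ¬ CntD {x ∈ X | ∃ c0, Rich (enc c0 x)}) := by
  classical
  rcases X.eq_empty_or_nonempty with rfl | ⟨x0, hx0⟩
  · exact Or.inl ⟨∅, countable_empty, by simp⟩
  let c0 : C := x0.2 0
  obtain ⟨m, rfl⟩ : ∃ m, n = m + 1 := ⟨n - 1, by
    have := (x0.1 0 0).pos
    omega⟩
  by_cases hP : PerfD X
  · exact Or.inr (Or.inl hP)
  -- parts of `X`
  have hsub : ∀ X' ⊆ X, ¬ PerfD X' := by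
    rintro X' hX' ⟨f, h1, h2, h3⟩
    exact hP ⟨f, h1, fun u => hX' (h2 u), h3⟩
  have hW : ∀ k, CntD {x ∈ X | Wd (nb x) k} := by
    intro k
    have hm : MeasurableSet {x ∈ X | Wd (nb x) k} := hX.inter (measurable_nb (hWMS k))
    refine cnt_dec (c0 := c0) ((hF c0 (m + 1) k (enc c0 '' {x ∈ X | Wd (nb x) k}) (meas_img hm)
      ?_ ?_ (inv_img ?_)).resolve_left fun h => hsub _ (sep_subset _ _) (perf_dec h))
    · rintro _ ⟨x, hx, rfl⟩
      exact bv_enc c0 x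
    · rintro _ ⟨x, hx, rfl⟩
      exact hx.2
    · rintro x ⟨hx, hxk⟩ y ⟨g, g1, g2⟩
      exact ⟨hinv x hx y ⟨g, g1, g2⟩,
        hWIN (nb x) (nb y) g (fun i j => congrArg Fin.val (g1 i j)) k hxk⟩
  have hA : ∀ k, CntD {x ∈ X | AtM (nb x) k} := by
    intro k
    have heq : {x ∈ X | AtM (nb x) k} = X ∩ nb ⁻¹' {c | AtQ c k} := by
      ext x
      simp only [mem_inter_iff, mem_preimage, mem_ofPred_eq]
      rw [hGM1 (m + 1) (nb x) (fun i j => (x.1 i j).2) k]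
    have hm : MeasurableSet {x ∈ X | AtM (nb x) k} := by
      rw [heq]
      exact hX.inter (measurable_nb (hGM2 k))
    refine cnt_dec (c0 := c0) ?_
    rcases hG c0 (m + 1) (enc c0 '' {x ∈ X | AtM (nb x) k}) (meas_img hm)
      (by rintro _ ⟨x, hx, rfl⟩; exact bv_enc c0 x) (inv_img (by
        rintro x ⟨hx, hxk⟩ y ⟨g, g1, g2⟩
        exact ⟨hinv x hx y ⟨g, g1, g2⟩,
          hGM3 (nb x) (nb y) g (fun i j => congrArg Fin.val (g1 i j)) k hxk⟩)) with h | h | h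
    · exact absurd (perf_dec h) (hsub _ (sep_subset _ _))
    · exact h
    · exfalso
      apply h
      refine ⟨∅, countable_empty, ?_⟩
      rintro _ ⟨x, hx, rfl⟩ ⟨U, hU1, hU2, -⟩
      exact absurd (not_fgm_of_atM (c := nb x) hx.2 hU1) hU2
  rcases hG c0 (m + 1) (enc c0 '' X) (meas_img hX)
    (by rintro _ ⟨x, hx, rfl⟩; exact bv_enc c0 x) (inv_img hinv) with h | h | h
  · exact absurd (perf_dec h) hP
  · exact Or.inl (cnt_dec h)
  · refine Or.inr (Or.inr ⟨?_, fun hc => h ?_⟩)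
    · choose D hD1 hD2 using hW
      choose E hE1 hE2 using hA
      refine ⟨(⋃ k, D k) ∪ ⋃ k, E k, (countable_iUnion hD1).union (countable_iUnion hE1), ?_⟩
      rintro x ⟨hx, ⟨k, hk⟩ | ⟨k, hk⟩⟩
      · obtain ⟨y, hy, hxy⟩ := hD2 k x ⟨hx, hk⟩
        exact ⟨y, Or.inl (mem_iUnion.2 ⟨k, hy⟩), hxy⟩
      · obtain ⟨y, hy, hxy⟩ := hE2 k x ⟨hx, hk⟩
        exact ⟨y, Or.inr (mem_iUnion.2 ⟨k, hy⟩), hxy⟩
    · obtain ⟨T, hT1, hT2⟩ := cnt_enc (c0 := c0) hc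
      refine ⟨T, hT1, ?_⟩
      rintro _ ⟨x, hx, rfl⟩ hR
      exact hT2 _ ⟨x, ⟨hx, c0, hR⟩, rfl⟩

end

end Pool.Agent.CW
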