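import Pool.Agent.H71.CW.Wid
import Pool.Agent.H76.CW.StmtB

/-! WID from WGER and WGR. -/

set_option autoImplicit false

open Set

namespace Pool.Agent.CW

theorem pf_WID (h1 : WGER) (h2 : WGR) : T_WID := by
  intro n c k hb hW P I hmono hun hfin hP hdec
  have hI : Idl {A | I A} :=
    ⟨fun A hA B hB => hmono B A hA hB, fun A hA B hB => hun A B hA hB, fun A hA => hfin A hA⟩
  obtain ⟨R, hR1, hR2⟩ := h2 c {A | I A} P hI (h1 c n k hb hW {A | I A} P hI hP (by
    intro A hA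
    have h3 : Few c (k + 1) (P \ (P ∩ A)) (P ∩ A) := by
      obtain ⟨f, hf⟩ := hA
      exact ⟨f, fun a ha a' ha' haa z hz => hf a ha.2 a' ha'.2 haa z fun h => hz.2 ⟨hz.1, h⟩⟩
    rcases hdec (k + 1) (P ∩ A) inter_subset_left h3 with h | h
    · exact Or.inl h
    · refine Or.inr (hmono _ _ h fun x hx => ⟨hx.1, fun h4 => hx.2 h4.2⟩)))
  exact ⟨R, hR1, hR2⟩

end Pool.Agent.CW
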