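import Pool.Agent.H71.CW.Main
import Pool.Agent.H71.CW.WID2
import Pool.Agent.H76.CW.AsmBC
import Pool.Agent.H75.CW.AsmE
import Pool.Agent.H41.CW.Grp
import Pool.Agent.H64.CW.SCH
import Pool.Agent.H71.CW.WINV
import Pool.Agent.H66.CW.FNB
import Pool.Agent.H92.CW.TP1
import Pool.Agent.H52.CW.TP2
import Pool.Agent.H52.CW.TP3
import Pool.Agent.H52.CW.TP4
import Pool.Agent.H52.CW.TP6
import Pool.Agent.H20.CW.TP5
import Pool.Agent.H13.CW.W1
import Pool.Agent.H60.CW.W2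
import Pool.Agent.H60.CW.WMS
import Pool.Agent.H70.CW.W3
import Pool.Agent.H54.CW.W4
import Pool.Agent.H34.CW.W5
import Pool.Agent.H34.CW.WGER
import Pool.Agent.H59.CW.WGR

/-! Assembly of the theorem on classes of bounded clique-width. -/

set_option autoImplicit false

open Set Pool.Agent.TK Pool.Agent.H71.VK

namespace Pool.Agent.CW

theorem all_TOP : TOP := top_of pf_TP1 pf_TP3 pf_TP4 (pf_TP6 pf_TP2 pf_TP5)

theorem all_WGER : WGER := pf_WGER pf_W1 pf_W3 (pf_W4 pf_W1 pf_W2 pf_W3) pf_W5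

theorem all_SCH : T_SCH := pf_SCH (a_NOD all_WGER pf_WGR) (a_AVO all_WGER pf_WGR)

section

variable {C : Type} [MeasurableSpace C]

theorem all_END (hMEX : T_MEX C) : E_END C :=
  pf_E_END a_INV a_TYP a_DCD a_BLK pf_RP0 pf_EXN pf_IOT hMEX pf_MES all_TOP

theorem all_FNB (hMEX : T_MEX C) (hFNC : T_FNC C) : T_FNB C :=
  pf_FNB pf_EXN hMEX pf_MES hFNC a_BLK pf_IOT a_INV a_TYP

theorem all_CWF [StandardBorelSpace C] (hMEX : T_MEX C) (hFNC : T_FNC C) (c0 : C) : CWF C c0 :=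
  cwf_of a_CTB (all_FNB hMEX hFNC) pf_GRP all_SCH (all_END hMEX)

end

end Pool.Agent.CW
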