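import Pool.Agent.H76.CW.AsmBC

/-! FNC: the components of a symmetric table when some of them are replaced. -/

set_option autoImplicit false

open Set Pool.Agent.TK Pool.Agent.H71.VK

namespace Pool.Agent.CW

theorem all_FNC {C : Type} : T_FNC C := by
  classical
  intro c0 n b M π S F v R hF hv hRA hav T
  set B : ℕ → Set ℕ := fun i => st (bn M) ((S, F, v i, true) :: π) with hB
  set z : ℕ → List ℕ := fun _ => S ++ zl π with hz
  set N := rp M B z R T with hN
  have hINV := a_INV (C := C) ℕ c0 n b M B z R hRA T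
  have hπ : Vd (bn M) π := (vd_cons.1 (hv 0)).1
  have hS : ∀ a ∈ S, a ∈ st (bn M) π := (vd_cons.1 (hv 0)).2.1
  have hvL : ∀ i, v i ∈ st (bn M) π ∧ v i ∉ S ++ zl π := fun i =>
    ⟨(vd_cons.1 (hv i)).2.2.1, base_not_mem (hv i)⟩
  have hBsub : ∀ i, ∀ x ∈ B i, x ∈ st (bn M) π ∧ x ∉ S ++ zl π := fun i x hx =>
    cl_sub (hvL i).1 (hvL i).2 x hx
  have havS : ∀ i, ∀ a ∈ S, a ∉ B i := fun i a ha h =>
    (hBsub i a h).2 (List.mem_append_left _ ha)
  have hBeq : ∀ i, ∀ x ∈ B i, st (bn M) ((S, F, x, true) :: π) = B i := fun i x hx =>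
    cl_eq hF (hvL i).1 (hvL i).2 hx
  have h1 := hINV π (fun a ha i _ => hav i a ha)
  have hst : st (bn N) π = st (bn M) π := h1.2.2 fun i _ => Or.inl fun x hx => (hBsub i x hx).1
  -- points outside the replaced blocks
  have hout : ∀ x ∈ st (bn M) π, x ∉ S → (∀ i ∈ T, x ∉ B i) →
      st (bn N) ((S, F, x, true) :: π) = st (bn M) ((S, F, x, true) :: π) := by
    intro x hx hxS hxB
    have hxL : x ∉ S ++ zl π := by
      rw [List.mem_append]
      rintro (h | h)
      · exact hxS h
      · exact zl_disj hπ x h hx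
    refine (hINV ((S, F, x, true) :: π) ?_).2.2 ?_
    · intro a ha i hi
      rw [dl_cons] at ha
      rcases List.mem_cons.1 ha with rfl | ha
      · exact hxB i hi
      · rcases List.mem_append.1 ha with ha | ha
        · exact havS i a ha
        · exact hav i a ha
    · intro i hi
      right
      rw [Set.disjoint_left]
      intro y hy hy'
      have h2 : x ∈ cl (bn M) (st (bn M) π) (S ++ zl π) F y := cl_symm hF hx hxL hy'
      have h3 : cl (bn M) (st (bn M) π) (S ++ zl π) F y = B i := hBeq i y hy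
      rw [h3] at h2
      exact hxB i hi h2
  refine ⟨h1.1.2 hπ, hst, fun i x hx => ?_, fun x hx hxS hxB =>
    hout x hx hxS fun i _ => hxB i⟩
  by_cases hiT : i ∈ T
  swap
  · change st (bn N) ((S, F, x, true) :: π) = B i
    rw [← hBeq i x hx]
    refine hout x (hBsub i x hx).1 (fun h => havS i x h hx) fun j hj hxj => ?_
    have hij : i ≠ j := fun h => hiT (h ▸ hj)
    exact Set.disjoint_left.1 (hRA.disj i j hij) hx hxj
  -- a replaced block, by the game
  obtain ⟨e1, e2, -, e4, e5⟩ := (pf_PSE : T_PSE C) ℕ c0 n b M B z R hRA T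
  have hM0 : rp M B z R ∅ = M := ((pf_RP0 : T_RP0 C) ℕ M B z R R).1
  have hcom : ∀ (r : Rk) (p : List (ℕ × ℕ)), Ps M B z R T r p → bf N M univ univ r p := by
    intro r p hp
    have h1 := (a_COM : T_COM C) ℕ c0 n b M B z R hRA T ∅ (empty_subset _) r p
      (by rwa [Set.sdiff_empty])
    rwa [hM0] at h1
  have hp0 : Ps M B z R T b (dg (S ++ dl π)) := e1 _ fun a ha i _ => by
    rcases List.mem_append.1 ha with ha | ha
    · exact havS i a ha
    · exact hav i a ha
  have hp1 : Ps M B z R T (Rk.lim (Rk.lim om2)) (dg (S ++ dl π)) := e2 _ b _ hRA.base hp0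
  obtain ⟨x', hx'⟩ := (e5 (fun m => Rk.sucN m (Rk.lim om2)) _ hp1 0).1 x
  have hx'' : Ps M B z R T (Rk.lim om2) ((x, x') :: dg (S ++ dl π)) := hx'
  have hx'B : x' ∈ B i := (hx''.2.1 (x, x') List.mem_cons_self i hiT).1 hx
  -- membership of a point
  have hmem : ∀ y y' : ℕ, Ps M B z R T om2 ((y, y') :: (x, x') :: dg (S ++ dl π)) →
      (y ∈ st (bn N) ((S, F, x, true) :: π) ↔ y' ∈ B i) := by
    intro y y' hp
    have hxS : x ∉ S ++ dl π := by
      rw [List.mem_append]
      rintro (h | h)
      · exact havS i x h hx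
      · exact hav i x h hx
    let h : ℕ → ℕ := fun a => if a = x then x' else a
    have hh : ∀ a ∈ S ++ dl π, h a = a := fun a ha =>
      if_neg fun (e : a = x) => hxS (e ▸ ha)
    have hhx : h x = x' := if_pos rfl
    have h2 := (pf_MEM : T_MEM C) N M ((S, F, x, true) :: π) h _ (hcom om2 _ hp) (by
      intro a ha
      rw [dl_cons] at ha
      rcases List.mem_cons.1 ha with e | ha
      · change a = x at e
        rw [e, hhx]
        exact List.mem_cons_of_mem _ List.mem_cons_self
      · rw [hh a ha]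
        exact List.mem_cons_of_mem _ (List.mem_cons_of_mem _ (List.mem_map.2 ⟨a, ha, rfl⟩)))
    have h3 : mp h ((S, F, x, true) :: π) = (S, F, x', true) :: π := by
      rw [mp_cons]
      have h4 : S.map h = S := by
        conv_rhs => rw [← List.map_id S]
        exact List.map_congr_left fun a ha => hh a (List.mem_append_left _ ha)
      have h5 : mp h π = π := by
        conv_rhs => rw [← mp_id π]
        exact mp_congr fun a ha => hh a (List.mem_append_right _ ha)
      rw [h5]
      simp only [h4, hhx]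
    have h6 := h2.2 (y, y') List.mem_cons_self
    rw [h3, hBeq i x' hx'B] at h6
    exact h6
  ext y
  by_cases hy : ∃ j ∈ T, y ∈ B j
  · obtain ⟨j, hj, hyj⟩ := hy
    obtain ⟨y', hy'⟩ := (e5 (fun m => Rk.sucN m om2) _ hx'' 0).1 y
    have hy'' : Ps M B z R T om2 ((y, y') :: (x, x') :: dg (S ++ dl π)) := hy'
    rw [hmem y y' hy'']
    exact ((hy''.2.1 (y, y') List.mem_cons_self i hiT)).symm
  · push Not at hy
    have h7 : Ps M B z R T om2 ((y, y) :: (x, x') :: dg (S ++ dl π)) :=
      e4 om2 _ y (e2 om2 (Rk.lim om2) _ (RLe.lim om2) hx'') hy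
    exact hmem y y h7

end Pool.Agent.CW
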