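import Pool.Agent.H76.CW.AsmBC

/-! MEX: replacement stays in the class. -/

set_option autoImplicit false

open Set Pool.Agent.TK Pool.Agent.H71.VK

namespace Pool.Agent.CW

theorem all_MEX {C : Type} [MeasurableSpace C] : T_MEX C := by
  intro ι c0 n b X hy M hM B z R hRA T
  have h1 : Ps M B z R (T \ ∅) b (dg []) :=
    (pf_PSE ι c0 n b M B z R hRA (T \ ∅)).1 [] (by simp)
  have h2 : bf (rp M B z R T) (rp M B z R ∅) univ univ b (dg []) :=
    a_COM ι c0 n b M B z R hRA T ∅ (empty_subset _) b _ h1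
  rw [(pf_RP0 ι M B z R R).1] at h2
  refine hy.cl M hM _ ?_
  have h3 : FB b (rp M B z R T) [] univ M [] univ := ⟨rfl, h2⟩
  exact h3.symm.2

end Pool.Agent.CW
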