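import Pool.Agent.H71.CW.All
import Pool.Agent.H71.CW.MEX
import Pool.Agent.H71.CW.FNC

/-! The theorem on classes of bounded clique-width, for coded structures. -/

set_option autoImplicit false

open Set Pool.Agent.TK Pool.Agent.H71.VK

namespace Pool.Agent.CW

theorem all_CWF2 {C : Type} [MeasurableSpace C] [StandardBorelSpace C] (c0 : C) : CWF C c0 :=
  all_CWF all_MEX all_FNC c0

end Pool.Agent.CW
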