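import Pool.Agent.H71.CW.FinG
import Pool.Agent.H71.CW.All2
import Pool.Agent.H76.CW.DIR
import Pool.Agent.H76.CW.GSCH
import Pool.Agent.H76.CW.GNOD
import Pool.Agent.H76.CW.GAVO
import Pool.Agent.H41.CW.Gng
import Pool.Agent.H41.CW.Syg2

/-! The structure theorem for coded structures, assembled. -/

set_option autoImplicit false

open Set Pool.Agent.TK Pool.Agent.H71.VK

namespace Pool.Agent.CW

theorem all_GSCH : G_SCH SpG :=
  pf_GSCH (pf_GNOD g_spl (pf_GAVO g_spl a_RFT) a_DC2) (pf_GAVO g_spl a_RFT)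

theorem all_DIR : T_DIR := pf_DIR a_ULT a_CON a_DEC pf_FIA

theorem all_CWG {C : Type} [MeasurableSpace C] [StandardBorelSpace C] (c0 : C) : CWG C c0 :=
  cwg_of a_CTB (all_FNB all_MEX all_FNC) pf_GNG pf_SYG2 all_DIR all_GSCH (all_END all_MEX) pf_DVP

end Pool.Agent.CW
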