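import Pool.Agent.H71.CW.Wid
import Pool.Agent.H71.CW.Top

/-!
The final reduction for the theorem on classes of bounded clique-width.
-/

set_option autoImplicit false

open Set Pool.Agent.TK Pool.Agent.H71.VK

namespace Pool.Agent.CW

/-- CWF: the theorem for coded structures. -/
def CWF (C : Type) [MeasurableSpace C] [StandardBorelSpace C] (c0 : C) : Prop :=
  ∀ (n k : ℕ) (X : Set (St (C × ℕ))), MeasurableSet X → (∀ M ∈ X, BV c0 n M) →
    (∀ M ∈ X, Wd (bn M) k) → (∀ M ∈ X, ∀ N, Iso M N → N ∈ X) →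
    Perf X ∨ ∃ T : Set (St (C × ℕ)), T.Countable ∧ ∀ M ∈ X, ∃ N ∈ T, Iso M N

section

variable {C : Type} {n : ℕ}

/-- coding of structures -/
def enc (c0 : C) (x : (ℕ → ℕ → Fin n) × (ℕ → C)) : St (C × ℕ) :=
  (fun u v => decide (u ≠ v), fun l => match l with
    | [a] => (x.2 a, 0)
    | [a, b] => (c0, x.1 a b)
    | _ => (c0, 0))

lemma bv_enc (c0 : C) (x : (ℕ → ℕ → Fin n) × (ℕ → C)) : BV c0 n (enc c0 x) := by
  refine ⟨fun _ _ => rfl, rfl, fun _ => rfl, fun a b => ⟨rfl, (x.1 a b).2⟩, fun l hl => ?_⟩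
  match l, hl with
  | a :: b :: d :: l, _ => rfl

lemma measurable_enc [MeasurableSpace C] (c0 : C) :
    Measurable (enc c0 : (ℕ → ℕ → Fin n) × (ℕ → C) → St (C × ℕ)) := by
  refine Measurable.prodMk measurable_const (measurable_pi_lambda _ fun l => ?_)
  match l with
  | [] => exact measurable_const
  | [a] => exact ((measurable_pi_apply a).comp measurable_snd).prodMk measurable_const
  | [a, b] =>
    refine measurable_const.prodMk ?_
    have h : Measurable fun x : (ℕ → ℕ → Fin n) × (ℕ → C) => x.1 a b :=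
      (measurable_pi_apply b).comp ((measurable_pi_apply a).comp measurable_fst)
    exact (measurable_of_countable (fun i : Fin n => (i : ℕ))).comp h
  | a :: b :: d :: l => exact measurable_const

/-- decoding -/
def decd (M : St (C × ℕ)) : (ℕ → ℕ → Fin (n + 1)) × (ℕ → C) :=
  (fun a b => Fin.ofNat (n + 1) (M.2 [a, b]).2, fun a => (M.2 [a]).1)

lemma dec_enc (c0 : C) (x : (ℕ → ℕ → Fin (n + 1)) × (ℕ → C)) : decd (enc c0 x) = x := by
  refine Prod.ext ?_ ?_
  · funext a b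
    change Fin.ofNat (n + 1) ((x.1 a b : Fin (n + 1)) : ℕ) = x.1 a b
    simp
  · rfl

lemma measurable_dec [MeasurableSpace C] :
    Measurable (decd : St (C × ℕ) → (ℕ → ℕ → Fin (n + 1)) × (ℕ → C)) := by
  refine Measurable.prodMk ?_ ?_
  · refine measurable_pi_lambda _ fun a => measurable_pi_lambda _ fun b => ?_
    have h : Measurable fun M : St (C × ℕ) => (M.2 [a, b]).2 :=
      measurable_snd.comp ((measurable_pi_apply [a, b]).comp measurable_snd)
    exact (measurable_of_countable (fun i : ℕ => Fin.ofNat (n + 1) i)).comp h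
  · refine measurable_pi_lambda _ fun a => ?_
    exact measurable_fst.comp ((measurable_pi_apply [a]).comp measurable_snd)

lemma iso_enc {c0 : C} {x y : (ℕ → ℕ → Fin n) × (ℕ → C)} {g : Equiv.Perm ℕ}
    (h1 : ∀ i j, y.1 (g i) (g j) = x.1 i j) (h2 : ∀ i, y.2 (g i) = x.2 i) :
    Iso (enc c0 x) (enc c0 y) := by
  refine ⟨g, by simp, fun u v => ?_, fun l => ?_⟩
  · change decide (u ≠ v) = decide (g u ≠ g v)
    rw [decide_eq_decide, Ne, Ne, g.injective.eq_iff]
  · match l with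
    | [] => rfl
    | [a] =>
      change (x.2 a, 0) = (y.2 (g a), 0)
      rw [h2]
    | [a, b] =>
      change (c0, ((x.1 a b : Fin n) : ℕ)) = (c0, ((y.1 (g a) (g b) : Fin n) : ℕ))
      rw [h1]
    | a :: b :: d :: l => rfl

lemma iso_enc_inv {c0 : C} {x y : (ℕ → ℕ → Fin n) × (ℕ → C)}
    (h : Iso (enc c0 x) (enc c0 y)) :
    ∃ g : Equiv.Perm ℕ, (∀ i j, y.1 (g i) (g j) = x.1 i j) ∧ ∀ i, y.2 (g i) = x.2 i := by
  obtain ⟨g, -, -, h2⟩ := h
  refine ⟨g, fun i j => ?_, fun i => ?_⟩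
  · have h3 := h2 [i, j]
    change (c0, ((x.1 i j : Fin n) : ℕ)) = (c0, ((y.1 (g i) (g j) : Fin n) : ℕ)) at h3
    exact (Fin.ext (Prod.ext_iff.1 h3).2).symm
  · have h3 := h2 [i]
    change (x.2 i, 0) = (y.2 (g i), 0) at h3
    exact (Prod.ext_iff.1 h3).1.symm

lemma exists_of_iso {c0 : C} {x : (ℕ → ℕ → Fin n) × (ℕ → C)} {N : St (C × ℕ)}
    (h : Iso (enc c0 x) N) : ∃ y : (ℕ → ℕ → Fin n) × (ℕ → C), N = enc c0 y ∧
      ∃ g : Equiv.Perm ℕ, (∀ i j, y.1 (g i) (g j) = x.1 i j) ∧ ∀ i, y.2 (g i) = x.2 i := by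
  obtain ⟨g, -, h1, h2⟩ := h
  refine ⟨(fun i j => x.1 (g.symm i) (g.symm j), fun i => x.2 (g.symm i)), ?_, g,
    fun i j => by simp, fun i => by simp⟩
  refine Prod.ext ?_ ?_
  · funext u v
    have h3 := h1 (g.symm u) (g.symm v)
    rw [g.apply_symm_apply, g.apply_symm_apply] at h3
    rw [← h3]
    change decide (g.symm u ≠ g.symm v) = decide (u ≠ v)
    rw [decide_eq_decide, Ne, Ne, g.symm.injective.eq_iff]
  · funext l
    have h3 := h2 (l.map g.symm)
    rw [List.map_map, Equiv.self_comp_symm, List.map_id] at h3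
    rw [← h3]
    match l with
    | [] => rfl
    | [a] => rfl
    | [a, b] => rfl
    | a :: b :: d :: l => rfl

/-- **The final reduction.** -/
theorem final_cw [MeasurableSpace C] [StandardBorelSpace C] (hF : ∀ c0 : C, CWF C c0)
    (hWMS : WMS) (hWIN : WIN)
    (X : Set ((ℕ → ℕ → Fin n) × (ℕ → C))) (hX : MeasurableSet X)
    (hinv : ∀ x ∈ X, ∀ y (g : Equiv.Perm ℕ), (∀ i j, y.1 (g i) (g j) = x.1 i j) →
      (∀ i, y.2 (g i) = x.2 i) → y ∈ X) :
    (∃ f : (ℕ → Bool) → (ℕ → ℕ → Fin n) × (ℕ → C), Measurable f ∧ (∀ u, f u ∈ X) ∧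
      ∀ u v, u ≠ v → ¬ ∃ g : Equiv.Perm ℕ, (∀ i j, (f v).1 (g i) (g j) = (f u).1 i j) ∧
        ∀ i, (f v).2 (g i) = (f u).2 i) ∨
    ∃ D : Set ((ℕ → ℕ → Fin n) × (ℕ → C)), D.Countable ∧ ∀ x ∈ X,
      (∃ k, Wd (fun i j => (x.1 i j : ℕ)) k) → ∃ y ∈ D, ∃ g : Equiv.Perm ℕ,
        (∀ i j, y.1 (g i) (g j) = x.1 i j) ∧ ∀ i, y.2 (g i) = x.2 i := by
  classical
  rcases X.eq_empty_or_nonempty with rfl | ⟨x0, hx0⟩
  · exact Or.inr ⟨∅, countable_empty, by simp⟩
  let c0 : C := x0.2 0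
  obtain ⟨m, rfl⟩ : ∃ m, n = m + 1 := ⟨n - 1, by
    have := (x0.1 0 0).pos
    omega⟩
  by_cases hperf : ∃ k, Perf (enc c0 '' {x ∈ X | Wd (fun i j => (x.1 i j : ℕ)) k})
  · left
    obtain ⟨k, f, hf1, hf2, hf3⟩ := hperf
    refine ⟨fun u => decd (f u), measurable_dec.comp hf1, fun u => ?_, fun u v huv hg => ?_⟩
    · obtain ⟨x, hx, hxe⟩ := hf2 u
      change decd (f u) ∈ X
      rw [← hxe, dec_enc]
      exact hx.1
    · obtain ⟨g, g1, g2⟩ := hg
      refine hf3 u v huv ?_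
      obtain ⟨x, hx, hxe⟩ := hf2 u
      obtain ⟨y, hy, hye⟩ := hf2 v
      simp only [← hxe, ← hye, dec_enc] at g1 g2
      rw [← hxe, ← hye]
      exact iso_enc g1 g2
  · right
    push Not at hperf
    have key : ∀ k, ∃ T : Set (St (C × ℕ)), T.Countable ∧
        ∀ M ∈ enc c0 '' {x ∈ X | Wd (fun i j => (x.1 i j : ℕ)) k}, ∃ N ∈ T, Iso M N := by
      intro k
      have hm : MeasurableSet {x ∈ X | Wd (fun i j => (x.1 i j : ℕ)) k} := by
        refine hX.inter ?_
        have h1 : Measurable fun x : (ℕ → ℕ → Fin (m + 1)) × (ℕ → C) =>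
            fun i j => ((x.1 i j : Fin (m + 1)) : ℕ) := by
          refine measurable_pi_lambda _ fun a => measurable_pi_lambda _ fun b => ?_
          have h : Measurable fun x : (ℕ → ℕ → Fin (m + 1)) × (ℕ → C) => x.1 a b :=
            (measurable_pi_apply b).comp ((measurable_pi_apply a).comp measurable_fst)
          exact (measurable_of_countable (fun i : Fin (m + 1) => (i : ℕ))).comp h
        exact h1 (hWMS k)
      have hm' : MeasurableSet (enc c0 '' {x ∈ X | Wd (fun i j => (x.1 i j : ℕ)) k}) := by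
        refine hm.image_of_measurable_injOn (measurable_enc c0) fun x _ y _ h => ?_
        rw [← dec_enc c0 x, ← dec_enc c0 y, h]
      refine (hF c0 (m + 1) k _ hm' ?_ ?_ ?_).resolve_left (hperf k)
      · rintro _ ⟨x, hx, rfl⟩
        exact bv_enc c0 x
      · rintro _ ⟨x, hx, rfl⟩
        exact hx.2
      · rintro _ ⟨x, hx, rfl⟩ N hN
        obtain ⟨y, rfl, g, g1, g2⟩ := exists_of_iso hN
        refine ⟨y, ⟨hinv x hx.1 y g g1 g2, ?_⟩, rfl⟩
        exact hWIN _ _ g (fun i j => by simp only [g1]) k hx.2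
    choose T hT1 hT2 using key
    refine ⟨⋃ k, {y | y ∈ X ∧ enc c0 y ∈ (fun N : St (C × ℕ) =>
      if h : ∃ y ∈ X, Iso N (enc c0 y) then enc c0 h.choose else N) '' T k}, ?_, ?_⟩
    · refine countable_iUnion fun k => ?_
      refine Set.Countable.mono (s₂ := (decd : St (C × ℕ) → (ℕ → ℕ → Fin (m + 1)) × (ℕ → C)) ''
        ((fun N : St (C × ℕ) => if h : ∃ y ∈ X, Iso N (enc c0 y) then enc c0 h.choose else N) ''
          T k)) ?_ (((hT1 k).image _).image _)
      rintro y ⟨-, hy⟩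
      exact ⟨_, hy, dec_enc c0 y⟩
    · rintro x hx ⟨k, hk⟩
      obtain ⟨N, hN, hiso⟩ := hT2 k (enc c0 x) ⟨x, ⟨hx, hk⟩, rfl⟩
      have hsym : Iso N (enc c0 x) := by
        obtain ⟨h, -, h1, h2⟩ := hiso
        refine ⟨h.symm, by simp, fun u v => ?_, fun l => ?_⟩
        · rw [h1]; simp
        · rw [h2, List.map_map]; simp
      have hex : ∃ y ∈ X, Iso N (enc c0 y) := ⟨x, hx, hsym⟩
      have h3 : Iso (enc c0 x) (enc c0 hex.choose) := by
        obtain ⟨h, -, h1, h2⟩ := hiso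
        obtain ⟨h', -, h1', h2'⟩ := hex.choose_spec.2
        refine ⟨h.trans h', by simp, fun u v => ?_, fun l => ?_⟩
        · rw [h1, h1']; rfl
        · rw [h2, h2', List.map_map]; rfl
      refine ⟨hex.choose, ?_, iso_enc_inv h3⟩
      rw [mem_iUnion]
      refine ⟨k, hex.choose_spec.1, N, hN, ?_⟩
      simp only [dif_pos hex]

end

end Pool.Agent.CW
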