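import Pool.Agent.H71.CW.Fin
import Pool.Agent.H76.CW.StmtB
import Pool.Agent.H76.CW.StmtC
import Pool.Agent.H41.CW.StmtD
import Pool.Agent.H75.CW.StmtE
import Pool.Agent.H16.TK.BF
import Pool.Agent.H75.TK.THN
import Pool.Agent.H75.TK.TYC
import Pool.Agent.H71.ST.Final3

/-! Assembly of the theorem for coded structures from the main modules. -/

set_option autoImplicit false

open Set Pool.Agent.TK Pool.Agent.H71.VK

namespace Pool.Agent.CW

variable {C : Type} [MeasurableSpace C] [StandardBorelSpace C] {c0 : C}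

/-- the class satisfies the hypotheses for some rank -/
theorem exists_hy {n : ℕ} {X : Set (St (C × ℕ))} (hX : MeasurableSet X)
    (hV : ∀ M ∈ X, BV c0 n M) (hI : ∀ M ∈ X, ∀ N, Iso M N → N ∈ X) (hP : ¬ Perf X) :
    ∃ b : Rk, Hy c0 n b X := by
  have hNFM : NFM (C × ℕ) := pf_NFM
  have hTYC : TYC (C × ℕ) := pf_TYC pf_THN hNFM
  obtain ⟨b0, hb0⟩ := (pf_LOP : LOP (C × ℕ)) X hX hI
  obtain ⟨b, hb, hbase⟩ : ∃ b : Rk, RLe (C × ℕ) b0 b ∧
      RLe (C × ℕ) (Rk.lim (Rk.lim om2)) b :=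
    ⟨Sh (Rk.lim (Rk.lim om2)) b0, RLe.sh_right _ _, RLe.sh_left _ _⟩
  exact ⟨b, { val := hV
              cl := fun M hM M' h => hb0 M hM M' (hb _ _ _ _ _ h)
              tc := hTYC X hX hI hP
              nf := hNFM X hP
              base := hbase }⟩

/-- **The theorem for coded structures.** -/
theorem cwf_of (hCTB : T_CTB C) (hFNB : T_FNB C) (hGRP : T_GRP C c0) (hSCH : T_SCH)
    (hEND : E_END C) : CWF C c0 := by
  intro n k X hX hV hW hI
  by_cases hP : Perf X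
  · exact Or.inl hP
  right
  by_contra hT
  obtain ⟨b, hy⟩ := exists_hy hX hV hI hP
  obtain ⟨O, hO, hO2⟩ := hCTB c0 n X hV hy.tc b
  have hfin : ∀ M ∈ X, ∀ (π : Pr) (S : List ℕ) (F : Tab), Vd (bn M) π →
      (∀ a ∈ S, a ∈ st (bn M) π) → Sy F →
      {D : Set ℕ | ∃ v ∈ st (bn M) π, v ∉ S ∧ ¬ SmO O M ((S, F, v, true) :: π) ∧
        D = st (bn M) ((S, F, v, true) :: π)}.Finite := by
    intro M hM π S F hπ hS hF
    refine (hFNB c0 n b X hy M hM π S F hπ hS hF).subset ?_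
    rintro D ⟨v, hv, hvS, hSm, rfl⟩
    refine ⟨v, hv, hvS, fun hs => hSm ?_, rfl⟩
    exact hO2 M hM ((S, F, v, true) :: π) (vd_cons.2 ⟨hπ, hS, hv, hvS⟩) hs
  obtain ⟨M, hM, ⟨G⟩⟩ := hGRP n O hO X hX hV hfin hP hT
  obtain ⟨D, B, hS⟩ := hSCH n (bn M) (SmO O M) G k (hW M hM)
  exact hEND c0 n b X hy M hM (SmO O M) D B hS fun π hπ hs => hO2 M hM π hπ hs

end Pool.Agent.CW
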