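import Pool.Agent.H71.CW.PStmt

/-!
# MP_5607ba_lc, board cw_modules, row NOD: the node of the scheme
-/

set_option autoImplicit false

open Set Pool.Agent.TK Pool.Agent.H71.VK

namespace Pool.Agent.CW

/-- three disjoint good pieces -/
private theorem pnod_three {Q : Hg} (hSPL : P_SPL Q) (n : ℕ) (c : ℕ → ℕ → ℕ) (Sm : Pr → Prop)
    (G : GS n c Sm) (hw : Q n c Sm G) (π : Pr) (hv : Vd c π) (hg : ¬ G.Nn (st c π)) :
    ∃ e : Fin 3 → Pr, (∀ i, (∃ σ : Pr, e i = σ ++ π) ∧ Vd c (e i) ∧ ¬ G.Nn (st c (e i))) ∧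
      ∀ i j, i ≠ j → Disjoint (st c (e i)) (st c (e j)) := by
  obtain ⟨σ, S, F, x, h1, h2, h3⟩ := hSPL n c Sm G hw π hv hg
  have h1' : Vd c ((S, F, x, false) :: (σ ++ π)) := vd_flip false h1
  obtain ⟨σ', S', F', x', k1, k2, k3⟩ := hSPL n c Sm G hw _ h1' h3
  have k1' : Vd c ((S', F', x', false) :: (σ' ++ ((S, F, x, false) :: (σ ++ π)))) :=
    vd_flip false k1
  have d0 := st_disj (c := c) (σ ++ π) S F x
  have d1 := st_disj (c := c) (σ' ++ ((S, F, x, false) :: (σ ++ π))) S' F' x'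
  have s1 : st c ((S', F', x', true) :: (σ' ++ ((S, F, x, false) :: (σ ++ π)))) ⊆
      st c ((S, F, x, false) :: (σ ++ π)) :=
    st_app (σ := (S', F', x', true) :: σ') k1
  have s2 : st c ((S', F', x', false) :: (σ' ++ ((S, F, x, false) :: (σ ++ π)))) ⊆
      st c ((S, F, x, false) :: (σ ++ π)) :=
    st_app (σ := (S', F', x', false) :: σ') k1'
  have d01 := d0.mono_right s1
  have d02 := d0.mono_right s2
  refine ⟨![(S, F, x, true) :: (σ ++ π),
    (S', F', x', true) :: (σ' ++ ((S, F, x, false) :: (σ ++ π))),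
    (S', F', x', false) :: (σ' ++ ((S, F, x, false) :: (σ ++ π)))], ?_, ?_⟩
  · intro i
    fin_cases i
    · exact ⟨⟨(S, F, x, true) :: σ, rfl⟩, h1, h2⟩
    · refine ⟨⟨(S', F', x', true) :: (σ' ++ ((S, F, x, false) :: σ)), ?_⟩, k1, k2⟩
      simp
    · refine ⟨⟨(S', F', x', false) :: (σ' ++ ((S, F, x, false) :: σ)), ?_⟩, k1', k3⟩
      simp
  · intro i j hij
    fin_cases i <;> fin_cases j
    · exact absurd rfl hij
    · exact d01
    · exact d02
    · exact d01.symm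
    · exact absurd rfl hij
    · exact d1
    · exact d02.symm
    · exact d1.symm
    · exact absurd rfl hij

/-- Row NOD -/
theorem pf_PNOD {Q : Hg} (hSPL : P_SPL Q) (hAVO : P_AVO Q) (hDC2 : T_DC2) : P_NOD Q := by
  intro n c Sm G hw π hv hg Z ρ hρ
  obtain ⟨e, he, hd⟩ := pnod_three hSPL n c Sm G hw π hv hg
  have h1 := fun i => hDC2 n c Sm G (e i) ρ (he i).2.1 hρ (he i).2.2
  choose τ t1 t2 t3 using h1
  have h2 := fun i => hAVO n c Sm G hw (τ i ++ e i) (t1 i) (t2 i)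
    (Z ++ (dl (τ 0 ++ e 0) ++ (dl (τ 1 ++ e 1) ++ dl (τ 2 ++ e 2))))
  choose ω w1 w2 w3 w4 using h2
  have hsub : ∀ i, st c (ω i ++ (τ i ++ e i)) ⊆ st c (τ i ++ e i) := fun i => st_app (w1 i)
  have hsub2 : ∀ i, st c (τ i ++ e i) ⊆ st c (e i) := fun i => st_app (t1 i)
  have hdis : ∀ i j, i ≠ j → Disjoint (st c (τ i ++ e i)) (st c (τ j ++ e j)) := fun i j hij =>
    (hd i j hij).mono (hsub2 i) (hsub2 j)
  have hW : ∀ i, ∀ a ∈ dl (τ i ++ e i),
      a ∈ Z ++ (dl (τ 0 ++ e 0) ++ (dl (τ 1 ++ e 1) ++ dl (τ 2 ++ e 2))) := by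
    intro i a ha
    rw [List.mem_append, List.mem_append, List.mem_append]
    fin_cases i
    · exact Or.inr (Or.inl ha)
    · exact Or.inr (Or.inr (Or.inl ha))
    · exact Or.inr (Or.inr (Or.inr ha))
  refine ⟨fun i => ω i ++ (τ i ++ e i), fun i => ⟨?_, w1 i, w2 i, ?_, ?_, ?_, ?_⟩⟩
  · obtain ⟨σ, hσ⟩ := (he i).1
    refine ⟨ω i ++ (τ i ++ σ), ?_⟩
    simp only [hσ, List.append_assoc]
  · intro a ha
    exact w3 i a (List.mem_append_left _ ha)
  · intro j a ha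
    by_cases hij : i = j
    · subst hij
      exact w4 i a ha
    · rcases dl_ext (w1 i) a ha with h | h
      · exact w3 j a (hW i a h)
      · intro h'
        exact Set.disjoint_left.1 (hdis i j hij) h (hsub j h')
  · intro j hij
    exact (hdis i j hij).mono (hsub i) (hsub j)
  · rcases t3 i with h | h
    · exact Or.inl ((hsub i).trans h)
    · exact Or.inr (h.mono_left (hsub i))

end Pool.Agent.CW
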