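import Pool.Agent.H76.CW.StmtG

/-! The scheme for a group in which all good pieces can be split. -/

set_option autoImplicit false

open Set Pool.Agent.TK Pool.Agent.H71.VK

namespace Pool.Agent.CW

/-- a property of the group -/
abbrev Hg := ∀ (n : ℕ) (c : ℕ → ℕ → ℕ) (Sm : Pr → Prop), GS n c Sm → Prop

/-- all good pieces can be split -/
def SplG : Hg := fun _ c _ G => ∀ π : Pr, Vd c π → ¬ G.Nn (st c π) →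
  ∃ (σ : Pr) (S : List ℕ) (F : Tab) (x : ℕ),
    Vd c ((S, F, x, true) :: (σ ++ π)) ∧ ¬ G.Nn (st c ((S, F, x, true) :: (σ ++ π))) ∧
    ¬ G.Nn (st c ((S, F, x, false) :: (σ ++ π)))

/-- SPL for a property `Q`. -/
def P_SPL (Q : Hg) : Prop :=
  ∀ (n : ℕ) (c : ℕ → ℕ → ℕ) (Sm : Pr → Prop) (G : GS n c Sm), Q n c Sm G → ∀ π : Pr,
    Vd c π → ¬ G.Nn (st c π) → ∃ (σ : Pr) (S : List ℕ) (F : Tab) (x : ℕ),
      Vd c ((S, F, x, true) :: (σ ++ π)) ∧ ¬ G.Nn (st c ((S, F, x, true) :: (σ ++ π))) ∧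
      ¬ G.Nn (st c ((S, F, x, false) :: (σ ++ π)))

/-- AVO for a property `Q`. -/
def P_AVO (Q : Hg) : Prop :=
  ∀ (n : ℕ) (c : ℕ → ℕ → ℕ) (Sm : Pr → Prop) (G : GS n c Sm), Q n c Sm G → ∀ π : Pr,
    Vd c π → ¬ G.Nn (st c π) → ∀ Z : List ℕ, ∃ σ : Pr, Vd c (σ ++ π) ∧
      ¬ G.Nn (st c (σ ++ π)) ∧ (∀ a ∈ Z, a ∉ st c (σ ++ π)) ∧
      ∀ a ∈ dl (σ ++ π), a ∉ st c (σ ++ π)

/-- NOD for a property `Q`. -/
def P_NOD (Q : Hg) : Prop :=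
  ∀ (n : ℕ) (c : ℕ → ℕ → ℕ) (Sm : Pr → Prop) (G : GS n c Sm), Q n c Sm G → ∀ π : Pr,
    Vd c π → ¬ G.Nn (st c π) → ∀ (Z : List ℕ) (ρ : Pr), Vd c ρ →
    ∃ f : Fin 3 → Pr, ∀ i, (∃ σ : Pr, f i = σ ++ π) ∧ Vd c (f i) ∧ ¬ G.Nn (st c (f i)) ∧
      (∀ a ∈ Z, a ∉ st c (f i)) ∧ (∀ j, ∀ a ∈ dl (f i), a ∉ st c (f j)) ∧
      (∀ j, i ≠ j → Disjoint (st c (f i)) (st c (f j))) ∧
      (st c (f i) ⊆ st c ρ ∨ Disjoint (st c (f i)) (st c ρ))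

/-- SCH for a property `Q`. -/
def P_SCH (Q : Hg) : Prop :=
  ∀ (n : ℕ) (c : ℕ → ℕ → ℕ) (Sm : Pr → Prop) (G : GS n c Sm), Q n c Sm G →
    ∃ D B : List Bool → Pr, Sch c Sm D B

theorem p_SPL : P_SPL SplG := fun _ _ _ _ h => h

end Pool.Agent.CW
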