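import Pool.Agent.H76.CW.StmtG
import Mathlib.Combinatorics.SimpleGraph.Paths

/-! Directions with infinitely many germs give subdivisions of the infinite complete graph. -/

set_option autoImplicit false

open Set

namespace Pool.Agent.CW

/-- no two points of `B` can be separated by finitely many other points -/
def Insep (G : SimpleGraph ℕ) (B : Set ℕ) : Prop :=
  ∀ a ∈ B, ∀ b ∈ B, a ≠ b → ∀ S : Finset ℕ, a ∉ S → b ∉ S →
    ∃ w : G.Walk a b, ∀ v ∈ w.support, v ∉ S

/-- a subdivision of the complete graph on infinitely many vertices -/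
def HasTK (G : SimpleGraph ℕ) : Prop :=
  ∃ (b : ℕ → ℕ) (P : ∀ i j, G.Walk (b i) (b j)), Function.Injective b ∧
    (∀ i j, i < j → (P i j).IsPath ∧ ∀ k, b k ∈ (P i j).support → k = i ∨ k = j) ∧
    ∀ i j k l, i < j → k < l → (i, j) ≠ (k, l) →
      ∀ v ∈ (P i j).support, v ∈ (P k l).support → v ∈ range b

/-- TKB: a direction with infinitely many germs gives an infinite inseparable set. -/
def T_TKB : Prop :=
  ∀ (n : ℕ) (c : ℕ → ℕ → ℕ) (U : Set (Set ℕ)) (e : ℕ), (∀ x y, c x y < n) → Dirn c U →
    ¬ FGm c U → ∃ B : Set ℕ, B.Infinite ∧ Insep (SimpleGraph.fromRel fun i j => c i j ≠ e) B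

/-- TKC: infinite inseparable sets give subdivisions of the infinite complete graph. -/
def T_TKC : Prop := ∀ (G : SimpleGraph ℕ) (B : Set ℕ), B.Infinite → Insep G B → HasTK G

end Pool.Agent.CW
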